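import Pool.Agent.Y920.HN.Stm

set_option autoImplicit false

/-! # Commutators with a finite set in an FC group -/

namespace Pool.Agent.Y309.HN

open Pool.Agent.Y920.HN
open scoped commutatorElement

private theorem fin_comm {N : Type} [Group N]
    (hN : ∀ x : N, {q : N | ∃ y : N, q = y * x * y⁻¹}.Finite)
    (T : Set N) (hT : T.Finite) : Finite (commutatorSet (Subgroup.closure T)) := by
  classical
  have hTf : Finite T := hT.to_subtype
  let φ : Subgroup.closure T → (T → N) := fun a t => (a : N) * t * (a : N)⁻¹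
  have hφ : (Set.range φ).Finite := by
    refine (Set.Finite.pi' (t := fun t : T => {q : N | ∃ y : N, q = y * (t : N) * y⁻¹})
      fun t => hN t).subset ?_
    rintro _ ⟨a, rfl⟩ t
    exact ⟨a, rfl⟩
  have hcent : ∀ a a' : Subgroup.closure T, φ a = φ a' →
      ∀ b ∈ Subgroup.closure T, (a : N)⁻¹ * a' * b = b * ((a : N)⁻¹ * a') := by
    intro a a' h b hb
    have hle : Subgroup.closure T ≤ Subgroup.centralizer {(a : N)⁻¹ * a'} := by
      rw [Subgroup.closure_le]
      intro t ht
      rw [SetLike.mem_coe, Subgroup.mem_centralizer_iff]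
      intro h1 hh1
      rw [Set.mem_singleton_iff] at hh1
      subst hh1
      have h2 : (a : N) * t * (a : N)⁻¹ = (a' : N) * t * (a' : N)⁻¹ := congrFun h ⟨t, ht⟩
      have h3 : t * (a : N)⁻¹ = (a : N)⁻¹ * ((a' : N) * t * (a' : N)⁻¹) := by
        rw [← h2]; group
      calc (a : N)⁻¹ * a' * t = (a : N)⁻¹ * ((a' : N) * t * (a' : N)⁻¹) * a' := by group
        _ = t * (a : N)⁻¹ * a' := by rw [h3]
        _ = t * ((a : N)⁻¹ * a') := by group
    have h4 := hle hb
    rw [Subgroup.mem_centralizer_iff] at h4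
    exact h4 _ rfl
  have hcomm : ∀ a a' b b' : Subgroup.closure T, φ a = φ a' → φ b = φ b' → ⁅a, b⁆ = ⁅a', b'⁆ := by
    intro a a' b b' h1 h2
    have e1 := hcent a a' h1 b b.2
    have e2 := hcent b b' h2 a' a'.2
    apply Subtype.ext
    rw [commutatorElement_def, commutatorElement_def]
    push_cast
    -- a' = a z , z = a⁻¹ a'
    have k1 : (a' : N) * b * (a' : N)⁻¹ = (a : N) * b * (a : N)⁻¹ := by
      calc (a' : N) * b * (a' : N)⁻¹ = (a : N) * ((a : N)⁻¹ * a' * b) * (a' : N)⁻¹ := by group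
        _ = (a : N) * (b * ((a : N)⁻¹ * a')) * (a' : N)⁻¹ := by rw [e1]
        _ = _ := by group
    have k2 : (a' : N) * b' * (a' : N)⁻¹ * (b' : N)⁻¹ = (a' : N) * b * (a' : N)⁻¹ * (b : N)⁻¹ := by
      have e3 : (a' : N)⁻¹ * ((b : N)⁻¹ * b') = ((b : N)⁻¹ * b') * (a' : N)⁻¹ := by
        calc (a' : N)⁻¹ * ((b : N)⁻¹ * b')
            = (a' : N)⁻¹ * ((b : N)⁻¹ * b' * a') * (a' : N)⁻¹ := by group
          _ = (a' : N)⁻¹ * (a' * ((b : N)⁻¹ * b')) * (a' : N)⁻¹ := by rw [e2]
          _ = _ := by group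
      calc (a' : N) * b' * (a' : N)⁻¹ * (b' : N)⁻¹
          = (a' : N) * b * (((b : N)⁻¹ * b') * (a' : N)⁻¹) * (b' : N)⁻¹ := by group
        _ = (a' : N) * b * ((a' : N)⁻¹ * ((b : N)⁻¹ * b')) * (b' : N)⁻¹ := by rw [e3]
        _ = _ := by group
    rw [k2, k1]
  let Φ : Subgroup.closure T × Subgroup.closure T → (T → N) × (T → N) :=
    fun p => (φ p.1, φ p.2)
  have hΦ : (Set.range Φ).Finite := by
    refine (hφ.prod hφ).subset ?_
    rintro _ ⟨p, rfl⟩
    exact ⟨⟨p.1, rfl⟩, ⟨p.2, rfl⟩⟩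
  let c : Subgroup.closure T × Subgroup.closure T → Subgroup.closure T := fun p => ⁅p.1, p.2⁆
  let g : (T → N) × (T → N) → Subgroup.closure T := fun q =>
    if h : ∃ p, Φ p = q then c h.choose else 1
  have hsub : commutatorSet (Subgroup.closure T) ⊆ g '' Set.range Φ := by
    rintro _ ⟨a, b, rfl⟩
    refine ⟨Φ (a, b), ⟨(a, b), rfl⟩, ?_⟩
    have hex : ∃ p, Φ p = Φ (a, b) := ⟨(a, b), rfl⟩
    have h1 : g (Φ (a, b)) = c hex.choose := dif_pos hex
    rw [h1]
    have h2 := hex.choose_spec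
    exact hcomm _ _ _ _ (congrArg Prod.fst h2) (congrArg Prod.snd h2)
  exact ((hΦ.image g).subset hsub).to_subtype

theorem t_SCHUR : S_SCHUR := by
  intro N _ hN E hE
  classical
  set S0 : Set N := {q : N | ∃ x : N, ∃ e ∈ E, q = x * e * x⁻¹ * e⁻¹} with hS0
  have hS0f : S0.Finite := by
    have h1 : (⋃ e ∈ E, (fun q => q * e⁻¹) '' {q : N | ∃ y : N, q = y * e * y⁻¹}).Finite :=
      hE.biUnion fun e _ => (hN e).image _
    refine h1.subset ?_
    rintro q ⟨x, e, he, rfl⟩
    simp only [Set.mem_iUnion]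
    exact ⟨e, he, ⟨x * e * x⁻¹, ⟨x, rfl⟩, rfl⟩⟩
  choose! f g hg hfg using (fun q (hq : q ∈ S0) => hq)
  set T : Set N := f '' S0 ∪ g '' S0 with hT
  have hTf : T.Finite := (hS0f.image f).union (hS0f.image g)
  have := fin_comm hN T hTf
  have hfin : Finite (commutator (Subgroup.closure T)) := inferInstance
  have hle : Subgroup.closure S0 ≤ (commutator (Subgroup.closure T)).map
      (Subgroup.closure T).subtype := by
    rw [Subgroup.closure_le]
    intro q hq
    have hf : f q ∈ Subgroup.closure T := Subgroup.subset_closure (Or.inl ⟨q, hq, rfl⟩)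
    have hgq : g q ∈ Subgroup.closure T := Subgroup.subset_closure (Or.inr ⟨q, hq, rfl⟩)
    refine ⟨⁅(⟨f q, hf⟩ : Subgroup.closure T), (⟨g q, hgq⟩ : Subgroup.closure T)⁆, ?_, ?_⟩
    · exact Subgroup.commutator_mem_commutator (Subgroup.mem_top _) (Subgroup.mem_top _)
    · rw [commutatorElement_def]
      simp only [map_mul, map_inv, Subgroup.coe_subtype]
      exact (hfg q hq).symm
  have hfin2 : Finite ((commutator (Subgroup.closure T)).map (Subgroup.closure T).subtype) := by
    have h3 : ((commutator (Subgroup.closure T)).map (Subgroup.closure T).subtype : Set N).Finite := by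
      rw [Subgroup.coe_map]
      exact (Set.toFinite ((commutator (Subgroup.closure T) : Subgroup (Subgroup.closure T)) :
        Set (Subgroup.closure T))).image _
    exact h3.to_subtype
  exact Finite.of_injective (Subgroup.inclusion hle) (Subgroup.inclusion_injective hle)

end Pool.Agent.Y309.HN
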